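import Pool.Agent.N209.GY.Main

/-!
# The conjecture C over all fields of characteristic p is equivalent to B over finite fields

Let `k₁` be a field, for instance an algebraic closure of `F_p` or of `Q`, with `l`-adic cohomology
`W₁`, and let `𝓔` be a set of extensions of `k₁`, for instance the algebraically closed ones. The
following are equivalent:

1. the Lefschetz standard conjecture B for all varieties over `k₁`;
2. B for all varieties over all the fields in `𝓔`;
3. the conjecture C (all Kunneth projectors are algebraic) for all varieties over all fields in `𝓔`;
4. the sign conjecture for all varieties over all the fields in `𝓔`;
5. the sign conjecture for all varieties over `k₁`, and for every variety `X` of odd dimension `n`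
   over a field in `𝓔` some cycle on `X × X` acts as the identity on `H^n(X)` and as zero on
   `H^(n-1)(X)`.

For `k₁` an algebraic closure of `F_p` the first half of (5), and even the conjecture C, is the
theorem of Katz and Messing; so the conjecture C for transcendental extensions is as strong as the
conjecture B for the varieties over finite fields.

(1) implies (2) by spreading out: a cycle on a variety over `k` extends to the total space of a
fibration over `k₁` whose geometric generic fibre is an alteration of the variety, and the
conjecture B for the total space gives the conjecture A for the fibre, by the decomposition theorem
and the relative hard Lefschetz theorem (helper190's `Pool.Agent.N190.FE`). (2) implies (3) implies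
(4) is known. (4) implies the first half of (5), (3) implies the second one, and (5) implies (1): let
`Z` be the generic hyperplane section of the square `V` of `Y = X × P¹ × P¹`. The average, over the
Galois group of the function field, of a cycle on `Z × Z` as in (5) is the restriction of a cycle on
`V × V` plus a multiple of the diagonal; the action on a vanishing class shows that the multiple is
`1`, so that the cycle on `V × V` inverts, up to sign, the cup product with the class of `Z` on the
classes of degree `dim V - 2`. On `V = Y × Y` the cup product is `g ↦ L g + g L`, for the operators
`g` on `H(Y)`, so `g` is algebraic if `L g + g L` is. This is applied to the operators `g` for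
which `L g + g L` is the projector onto the degrees of one parity (`Pool.Agent.N209.GS`).
-/

set_option autoImplicit false

open CategoryTheory AlgebraicGeometry

universe u v

namespace Pool.Agent.Results.MP_4ca46c_ag.AllFields

open Pool.Agent.H914 Pool.Agent.N190.FE Pool.Agent.N209.GX VarClass Obj

/-- Let `W₁` be the theory over the base field `k₁` (for instance `l`-adic cohomology over an
algebraic closure of a finite field) and let `𝓔` be a set of extensions of `k₁` with their
theories, over which there are generic hyperplane sections of the varieties over `k₁`. Then the
following are equivalent: the Lefschetz standard conjecture over `k₁`; the Lefschetz standard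
conjecture over all the extensions; the conjecture C over all the extensions; the sign conjecture
over all the extensions; the sign conjecture over `k₁` and, for each variety of odd dimension over
each of the extensions, the existence of a cycle which acts as the identity in the middle degree and
as zero in the degree below it. -/
theorem result {k₁ : Type u} [Field k₁] {𝒱₁ : VarClass k₁} {ops₁ : CycleOps 𝒱₁}
    (W₁ : WeilCohomology.{u, v} ops₁) (𝓔 : Set (Extension W₁)) (P : 𝒱₁.Obj) (h : P.Cycles)
    (hP : LineLike W₁ P h) (hS : Pool.Agent.N209.GY.HasSections 𝓔 P h) :
    List.TFAE [LSC W₁, ∀ F ∈ 𝓔, LSC F.W, ∀ F ∈ 𝓔, ∀ X, ConjC F.W X,
      ∀ F ∈ 𝓔, ∀ X, ConjSign F.W X,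
      (∀ X, ConjSign W₁ X) ∧
        ∀ F ∈ 𝓔, ∀ X : F.𝒱.Obj, Odd X.dim → Pool.Agent.N209.GY.SplitsMiddle F.W X] :=
  Pool.Agent.N209.GY.main_tfae hP hS

end Pool.Agent.Results.MP_4ca46c_ag.AllFields
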