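import Pool.Agent.N190.CG.Main
import Pool.Agent.H447R3.WtB

/-!
# The canonical obstruction and the conjecture C

Let `W` be a Weil cohomology theory (any characteristic), `X` a smooth proper variety of
dimension `n` and `D` a divisor on `X` with hard Lefschetz. Consider the graded subspaces `N` of
`H(X)` which are stable under all algebraic correspondences, and their excess
`∑ (i - n) dim N^i`, which compares the center of gravity of `N` with `n`.

There is a canonical one, `O`, the smallest of largest excess. The cup product pairing vanishes on
`O`, and `O` is preserved by all semilinear automorphisms of the graded space `H(X)` which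
normalize the correspondences (Galois automorphisms, crystalline Frobenius, ...). If `O = 0`, then
all Kunneth components of the diagonal are algebraic. Moreover `O = 0` if and only if all stable
`N` are symmetric, if and only if the center of gravity of the isotropic stable subspaces
which are preserved by all these automorphisms is at most `n`, if and only if the conjecture B holds
for `X`.
-/

open Finset Pool.Agent.H914 Pool.Agent.H447 Pool.Agent.TH133.PW Pool.Agent.N190.CG

universe u v

namespace Pool.Agent.Results.MP_4ca46c_ag.CanonicalObstruction

/-- **The canonical obstruction and the conjecture C.** -/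
theorem result {k : Type u} [Field k] {𝒱 : VarClass k} {ops : CycleOps 𝒱}
    (W : WeilCohomology.{u, v} ops) (X : 𝒱.Obj) (D : X.Cycles) (hD : X.IsCyc 1 D)
    (hHL : HardLefschetz W X D) :
    (∃! O, IsObstruction W X O) ∧
    ∀ O, IsObstruction W X O →
      IsIsotropicFor (W.tr X) O ∧ IsFullyInvariant W X O ∧
      ((∀ i, O i = ⊥) → KunnethStd W X) ∧
      [∀ i, O i = ⊥, StableSymmetric W X, GravityBound W X, InverseAtEachClass W X D,
        LefschetzB W X D].TFAE := by
  obtain ⟨O, hO⟩ := exists_isObstruction W X
  refine ⟨⟨O, hO, fun O' hO' => hO'.unique hO⟩, fun O' hO' =>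
    ⟨hO'.isotropic, hO'.fullyInvariant, fun h0 => ?_, ?_⟩⟩
  · obtain ⟨Φ, hΦ, hLam⟩ := lefschetzB_iff_rop.1 (((tfae hD hHL hO').out 0 1).2 h0)
    exact kunneth_of_rop fun i => rop_opAlg.proj_mem (W.isInternal X) W_hbd
      (rop_mulLeft hD) hHL hΦ hLam i
  · have h := tfae hD hHL hO'
    tfae_have 1 → 2 := (h.out 1 2).1
    tfae_have 2 → 3 := (h.out 2 3).1
    tfae_have 3 → 4 := (h.out 3 4).1
    tfae_have 4 → 5 := (h.out 4 0).1
    tfae_have 5 → 1 := (h.out 0 1).1
    tfae_finish

end Pool.Agent.Results.MP_4ca46c_ag.CanonicalObstruction
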